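import Pool.Agent.H48.OM.FinL

/-!
Unconditional oscillation of the primes in short intervals of length `x ^ ε`, in both directions and
on every interval `[X ^ (1 - 60 ε₂), X]`, of the size of the square root of the expected number: for
`0 < ε₁ ≤ ε₂ ≤ 1 / 1000` there is `c > 0` such that for all large `X` there is `Y` in
`[X ^ (1 - 60 ε₂), X / 2]` for which every interval length `Y ^ ε₁ ≤ H ≤ Y ^ ε₂` has a starting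
point `n` in `[Y, Y + Y ^ (199 / 200)]` with `π(n + H) - π(n) ≥ H / log n + c √(H / log n)`,
and there is such a `Y` for `π(n + H) - π(n) ≤ H / log n - c √(H / log n)`.
-/

namespace Pool.Agent.H48.OM.Old.SquareRootOscillation

/-- Both signs, all lengths `Y ^ ε₁ ≤ H ≤ Y ^ ε₂`; the set is the set of the primes `p` with
`n < p ≤ n + H`. -/
theorem result (ε₁ ε₂ : ℝ) (h1 : 0 < ε₁) (h12 : ε₁ ≤ ε₂) (h2 : ε₂ ≤ 1 / 1000) :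
    ∃ c : ℝ, 0 < c ∧ ∃ X₀ : ℝ, ∀ X : ℝ, X₀ ≤ X →
      (∃ Y : ℝ, X ^ (1 - 60 * ε₂) ≤ Y ∧ 2 * Y ≤ X ∧ ∀ H : ℝ, Y ^ ε₁ ≤ H → H ≤ Y ^ ε₂ →
        ∃ n : ℕ, Y ≤ n ∧ (n : ℝ) ≤ Y + Y ^ (199 / 200 : ℝ) ∧
          H / Real.log n + c * Real.sqrt (H / Real.log n) ≤
            {p : ℕ | p.Prime ∧ n < p ∧ (p : ℝ) ≤ n + H}.ncard) ∧
      (∃ Y : ℝ, X ^ (1 - 60 * ε₂) ≤ Y ∧ 2 * Y ≤ X ∧ ∀ H : ℝ, Y ^ ε₁ ≤ H → H ≤ Y ^ ε₂ →
        ∃ n : ℕ, Y ≤ n ∧ (n : ℝ) ≤ Y + Y ^ (199 / 200 : ℝ) ∧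
          ({p : ℕ | p.Prime ∧ n < p ∧ (p : ℝ) ≤ n + H}.ncard : ℝ) ≤
            H / Real.log n - c * Real.sqrt (H / Real.log n)) := by
  obtain ⟨c₁, hc₁, h₁⟩ := Pool.Agent.H48.OM.fin_loc ε₁ ε₂ h1 h12 h2 1 (Or.inl rfl)
  obtain ⟨c₂, hc₂, h₂⟩ := Pool.Agent.H48.OM.fin_loc ε₁ ε₂ h1 h12 h2 (-1) (Or.inr rfl)
  obtain ⟨X₁, hX₁⟩ := Filter.eventually_atTop.1 h₁
  obtain ⟨X₂, hX₂⟩ := Filter.eventually_atTop.1 h₂
  refine ⟨min c₁ c₂, lt_min hc₁ hc₂, max X₁ X₂, fun X hX => ⟨?_, ?_⟩⟩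
  · obtain ⟨Y, hY1, hY2, hY⟩ := hX₁ X ((le_max_left _ _).trans hX)
    refine ⟨Y, hY1, hY2, fun H hH1 hH2 => ?_⟩
    obtain ⟨n, hn1, hn2, hn3⟩ := hY H hH1 hH2
    refine ⟨n, hn1, hn2, ?_⟩
    rw [one_mul] at hn3
    have hn4 : c₁ * Real.sqrt (H / Real.log n) ≤
        ({p : ℕ | p.Prime ∧ n < p ∧ (p : ℝ) ≤ n + H}.ncard : ℝ) - H / Real.log n := hn3
    have := mul_le_mul_of_nonneg_right (min_le_left c₁ c₂) (Real.sqrt_nonneg (H / Real.log n))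
    linarith
  · obtain ⟨Y, hY1, hY2, hY⟩ := hX₂ X ((le_max_right _ _).trans hX)
    refine ⟨Y, hY1, hY2, fun H hH1 hH2 => ?_⟩
    obtain ⟨n, hn1, hn2, hn3⟩ := hY H hH1 hH2
    refine ⟨n, hn1, hn2, ?_⟩
    have hn4 : c₂ * Real.sqrt (H / Real.log n) ≤
        -1 * (({p : ℕ | p.Prime ∧ n < p ∧ (p : ℝ) ≤ n + H}.ncard : ℝ) - H / Real.log n) := hn3
    have := mul_le_mul_of_nonneg_right (min_le_right c₁ c₂) (Real.sqrt_nonneg (H / Real.log n))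
    linarith

end Pool.Agent.H48.OM.Old.SquareRootOscillation
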